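import Pool.Agent.X14.QPair

/-!
# A q-supercongruence with factors `[4k+1]` and `q^{k^2}`
-/

set_option autoImplicit false

namespace Pool.Agent.Results.MP_dac99f_nt.AllOddN

open Finset Polynomial

noncomputable section

/-- The indeterminate `q`, as an element of `ℚ(q)`. -/
def q : RatFunc ℚ := RatFunc.X

/-- The q-integer `[N] = 1 + q + ⋯ + q^{N-1}`. -/
def qint (N : ℕ) : RatFunc ℚ := ∑ i ∈ range N, q ^ i

/-- The q-shifted factorial `(a; x)_k = (1 - a)(1 - a x) ⋯ (1 - a x^{k-1})`. -/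
def qp (a x : RatFunc ℚ) (k : ℕ) : RatFunc ℚ := ∏ j ∈ range k, (1 - a * x ^ j)

/-- `A ≡ B (mod Φ^2)`: `A - B = U / V` with polynomials `U`, `V`, where `V` is coprime to `Φ` and
`Φ^2` divides `U`. -/
def CongSq (Φ : ℚ[X]) (A B : RatFunc ℚ) : Prop :=
  ∃ U V : ℚ[X], IsCoprime V Φ ∧ Φ ^ 2 ∣ U ∧
    A - B = algebraMap ℚ[X] (RatFunc ℚ) U / algebraMap ℚ[X] (RatFunc ℚ) V

/-- The sum `S_{m,n}(q)`. -/
def S (m n : ℕ) : RatFunc ℚ :=
  ∑ k ∈ range (m * n), (-1) ^ k * qint (4 * k + 1) * q ^ (k ^ 2) *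
    (qp q (q ^ 2) k ^ 3 / qp (q ^ 2) (q ^ 2) k ^ 3)

/-- The rational number `c_m`; here `∏_{j<k} (1/2 + j) = (1/2)_k`. -/
def c (m : ℕ) : ℚ :=
  ∑ k ∈ range m, (-1) ^ k * (4 * k + 1) * ((∏ j ∈ range k, (1 / 2 + (j : ℚ))) ^ 3 / (k.factorial : ℚ) ^ 3)

open Pool.Agent.X14 QL QBlock

lemma q_def : q = QL.q := rfl

lemma qint_mul (N : ℕ) : qint N * (1 - q) = 1 - q ^ N := by
  unfold qint
  have := geom_sum_mul q N
  linear_combination -this

lemma one_sub_q : 1 - q ≠ 0 := by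
  have := one_sub_ne (j := 1) one_pos
  rwa [pow_one] at this

lemma qint_mem (P : ℚ[X]) (N : ℕ) : qint N ∈ Loc P :=
  (Loc P).sum_mem (fun _ _ => (Loc P).pow_mem (q_mem P) _)

/-- the terms -/
def term (k : ℕ) : RatFunc ℚ := (-1) ^ k * qint (4 * k + 1) * q ^ (k ^ 2) * rr 1 k ^ 3

lemma qp_odd (k : ℕ) : qp q (q ^ 2) k = ∏ j ∈ range k, e (((1 : ℕ) : ℤ) * (2 * (j : ℤ) + 1)) := by
  unfold qp
  apply prod_congr rfl
  intro j _
  rw [show (((1 : ℕ) : ℤ) * (2 * (j : ℤ) + 1)) = ((2 * j + 1 : ℕ) : ℤ) by push_cast; ring, e_nat,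
    q_def, ← pow_mul, pow_succ]
  ring

lemma qp_even (k : ℕ) : qp (q ^ 2) (q ^ 2) k = ∏ j ∈ range k, e (((1 : ℕ) : ℤ) * (2 * (j : ℤ) + 2)) := by
  unfold qp
  apply prod_congr rfl
  intro j _
  rw [show (((1 : ℕ) : ℤ) * (2 * (j : ℤ) + 2)) = ((2 * j + 2 : ℕ) : ℤ) by push_cast; ring, e_nat,
    q_def, ← pow_mul, pow_add]
  ring

lemma S_eq (m n : ℕ) : S m n = ∑ k ∈ range (m * n), term k := by
  unfold S term
  apply sum_congr rfl
  intro k _
  congr 1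
  rw [qp_odd, qp_even, ← div_pow, rr, prod_div_distrib]

/-- the exact evaluation -/
lemma exact (n μ h : ℕ) (hn : n = 2 * h + 1) :
    ∑ k ∈ range (n * (μ + 1)), term k * WW 1 n (2 * μ + 1) k =
      (-1) ^ (n * μ + h) * q ^ ((n * μ + h) ^ 2) * qint ((2 * μ + 1) * n) := by
  set m := n * μ + h with hm
  have hmz : (2 * (μ : ℤ) + 1) * n = 2 * m + 1 := by rw [hm, hn]; push_cast; ring
  have hK : m < n * (μ + 1) := by rw [hm, Nat.mul_succ]; omega
  have hs := pair_sum (s := 1) one_pos hmz (b := 0) (fun k => by simp) hK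
  have hb : ∀ k, bb 1 0 k * q ^ (1 * k) = (-1) ^ k * QL.q ^ (k ^ 2) := by
    intro k
    induction k with
    | zero => simp [bb]
    | succ k ih =>
      have h3 : bb 1 0 (k + 1) = bb 1 0 k * (-(QL.q ^ (2 * k))) := by
        unfold bb
        rw [prod_range_succ]
        congr 1
        rw [zero_mul, sub_zero, div_one, zero_sub, ← zpow_natCast]
        congr 2; push_cast; ring
      have h4 : QL.q ^ ((k + 1) ^ 2) = QL.q ^ (k ^ 2) * QL.q ^ (2 * k) * QL.q := by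
        rw [← pow_add, ← pow_succ]; congr 1; ring
      have h5 : bb 1 0 k * q ^ (1 * k) * (-(QL.q ^ (2 * k)) * QL.q) = (-1) ^ k * QL.q ^ (k ^ 2) * (-(QL.q ^ (2 * k)) * QL.q) := by
        rw [ih]
      rw [h3, h4, Nat.mul_succ, pow_add, pow_one, pow_succ (-1 : RatFunc ℚ)]
      rw [q_def] at *
      linear_combination h5
  have h1 := one_sub_q
  have he : ∀ N : ℕ, e (((1 : ℕ) : ℤ) * (N : ℤ)) = qint N * (1 - q) := by
    intro N
    rw [qint_mul, show ((1 : ℕ) : ℤ) * (N : ℤ) = ((N : ℕ) : ℤ) by push_cast; ring, e_nat, q_def]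
  apply mul_right_cancel₀ h1
  rw [sum_mul]
  have hl : ∑ i ∈ range (n * (μ + 1)), term i * WW 1 n (2 * μ + 1) i * (1 - q) =
      ∑ k ∈ range (n * (μ + 1)), e (((1 : ℕ) : ℤ) * (4 * (k : ℤ) + 1)) * (QL.q ^ (1 * k) * rr 1 k ^ 3 * WW 1 n (2 * μ + 1) k * bb 1 0 k) := by
    apply sum_congr rfl
    intro k _
    have h2 := he (4 * k + 1)
    push_cast at h2 ⊢
    rw [h2]
    have h3 := hb k
    rw [q_def] at *
    unfold term
    rw [q_def]
    linear_combination -(qint (4 * k + 1) * (1 - QL.q) * rr 1 k ^ 3 * WW 1 n (2 * μ + 1) k) * h3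
  rw [hl, hs]
  have h6 : ((2 * μ + 1) * n : ℕ) = 2 * m + 1 := by exact_mod_cast hmz
  have h7 := he (2 * m + 1)
  rw [h6]
  have h8 : ∏ j ∈ range m, ((1 - (0 : RatFunc ℚ) * QL.q ^ (((1 : ℕ) : ℤ) * (2 * j + 2 - (2 * m + 1)))) / (1 - 0 * QL.q ^ (((1 : ℕ) : ℤ) * (2 * j + 3)))) = 1 := by
    apply prod_eq_one
    intro j _
    simp
  rw [h8, mul_one, one_mul]
  push_cast at h7 ⊢
  rw [h7, q_def]
  ring

/-- the rational weights -/
def w (μ J : ℕ) : ℚ := wo (2 * (μ : ℤ) + 1) J / we (2 * (μ : ℤ) + 1) J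

lemma WW_eqm {n h : ℕ} (hn : n = 2 * h + 1) (μ J : ℕ) {l : ℕ} (hl : l ≤ h) :
    Eqm (cyclotomic n ℚ) 2 (WW 1 n (2 * μ + 1) (n * J + l)) (w μ J) := by
  unfold WW w
  exact (Po_eqm hn one_pos (Nat.coprime_one_left n) _ J hl).div (by norm_num)
    (Pe_eqm hn one_pos (Nat.coprime_one_left n) _ J (by omega)) (we_ne J)

lemma WW_mem {n h : ℕ} (hn : n = 2 * h + 1) (μ J : ℕ) {l : ℕ} (hl : l < n) :
    WW 1 n (2 * μ + 1) (n * J + l) ∈ Loc (cyclotomic n ℚ) := by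
  unfold WW
  rw [div_eq_mul_inv]
  exact (Loc _).mul_mem (Po_mem (by omega) one_pos (Nat.coprime_one_left n) _ _)
    (((Pe_eqm hn one_pos (Nat.coprime_one_left n) _ J hl).inv (we_ne J) (by norm_num)).mem (rat_mem _ _))

lemma term_mem {n h : ℕ} (hn : n = 2 * h + 1) (J : ℕ) {l : ℕ} (hl : l < n) :
    term (n * J + l) ∈ Loc (cyclotomic n ℚ) ∧ (h < l → QO (cyclotomic n ℚ) 2 (term (n * J + l))) := by
  obtain ⟨h1, h2⟩ := rr_mem (s := 1) hn one_pos (Nat.coprime_one_left n) J hl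
  have h3 : (-1 : RatFunc ℚ) ^ (n * J + l) * qint (4 * (n * J + l) + 1) * q ^ ((n * J + l) ^ 2) ∈ Loc (cyclotomic n ℚ) :=
    (Loc _).mul_mem ((Loc _).mul_mem ((Loc _).pow_mem ((Loc _).neg_mem (Loc _).one_mem) _) (qint_mem _ _)) ((Loc _).pow_mem (q_mem _) _)
  refine ⟨(Loc _).mul_mem h3 ((Loc _).pow_mem h1 3), fun hl' => ?_⟩
  have h4 := h2 hl'
  unfold term
  rw [show rr 1 (n * J + l) ^ 3 = rr 1 (n * J + l) * rr 1 (n * J + l) * rr 1 (n * J + l) by ring]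
  exact QO.mul_left h3 (QO.mul_right (h4.mul h4) h1)

/-- the classical terms -/
def b (J : ℕ) : ℚ := (-1) ^ J * (4 * J + 1) * (∏ i ∈ range J, ((2 * (i : ℚ) + 1) / (2 * i + 2))) ^ 3

lemma q_sub_one : QO (cyclotomic 1 ℚ) 1 (q - 1) := by
  have := (x_props (n := 1) (s := 1) one_pos one_pos).1
  rwa [one_mul, pow_one] at this

lemma q_pow_one (N : ℕ) : Eqm (cyclotomic 1 ℚ) 1 (q ^ N) 1 := by
  have := Eqm.pow (P := cyclotomic 1 ℚ) (k := 1) (x := q) (y := 1) q_sub_one (Loc _).one_mem N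
  rwa [one_pow] at this

lemma qint_one (N : ℕ) : Eqm (cyclotomic 1 ℚ) 1 (qint N) (N : RatFunc ℚ) := by
  unfold qint
  have := Eqm.sum (P := cyclotomic 1 ℚ) (k := 1) (s := range N) (f := fun i => q ^ i) (g := fun _ => 1) (fun i _ => q_pow_one i)
  simpa using this

lemma term_one (J : ℕ) : Eqm (cyclotomic 1 ℚ) 1 (term J) (b J : ℚ) := by
  unfold term b
  push_cast
  have h1 := (rr_one (s := 1) one_pos J).pow (rat_mem _ _) 3
  push_cast at h1
  have h2 := qint_one (4 * J + 1)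
  push_cast at h2
  have h3 : (4 * (J : RatFunc ℚ) + 1) ∈ Loc (cyclotomic 1 ℚ) := by
    have := nat_mem (cyclotomic 1 ℚ) (4 * J + 1); push_cast at this; exact this
  have hm : (-1 : RatFunc ℚ) ^ J ∈ Loc (cyclotomic 1 ℚ) := (Loc _).pow_mem ((Loc _).neg_mem (Loc _).one_mem) _
  have h4 := ((Eqm.mul_left hm h2).mul (q_pow_one (J ^ 2)) ((Loc _).mul_mem hm h3) (Loc _).one_mem)
  rw [mul_one] at h4
  refine h4.mul h1 ((Loc _).mul_mem hm h3) ?_
  have := rat_mem (cyclotomic 1 ℚ) ((∏ i ∈ range J, ((2 * (i : ℚ) + 1) / (2 * i + 2))) ^ 3)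
  push_cast at this
  exact this

lemma classical (μ : ℕ) : ∑ J ∈ range (μ + 1), w μ J * b J = (-1) ^ μ * (2 * μ + 1) := by
  have h0 := exact 1 μ 0 (by norm_num)
  rw [one_mul] at h0
  refine eval_one h0 (fun j _ => term_one j) (fun j _ => ?_) ?_
  · have := (WW_eqm (n := 1) (h := 0) (by norm_num) μ j (l := 0) le_rfl).le (show 1 ≤ 2 by norm_num)
    rwa [one_mul, add_zero] at this
  · rw [one_mul, add_zero, mul_one]
    have hm : (-1 : RatFunc ℚ) ^ μ ∈ Loc (cyclotomic 1 ℚ) := (Loc _).pow_mem ((Loc _).neg_mem (Loc _).one_mem) _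
    have h1 := (Eqm.mul_left hm (q_pow_one (μ ^ 2)))
    have h2 := h1.mul (qint_one (2 * μ + 1)) (by rw [mul_one]; exact hm) (nat_mem _ _)
    rw [mul_one] at h2
    push_cast at h2 ⊢
    exact h2

/-- the right-hand side of the exact evaluation -/
lemma V_eqm {n h : ℕ} (hn : n = 2 * h + 1) (hn1 : 1 < n) (μ : ℕ) :
    Eqm (cyclotomic n ℚ) 2 ((-1) ^ (n * μ + h) * q ^ ((n * μ + h) ^ 2) * qint ((2 * μ + 1) * n))
      ((-1) ^ h * q ^ (h ^ 2) * qint n * (((-1) ^ μ * (2 * μ + 1) : ℚ) : RatFunc ℚ)) := by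
  set G : RatFunc ℚ := ∑ i ∈ range (2 * μ + 1), (q ^ n) ^ i with hG
  have hn0 : 0 < n := by omega
  have hx : Eqm (cyclotomic n ℚ) 1 (q ^ n) 1 := by
    have := (x_props (n := n) (s := 1) hn0 one_pos).1
    rwa [one_mul] at this
  have hpow : ∀ i : ℕ, Eqm (cyclotomic n ℚ) 1 ((q ^ n) ^ i) 1 := by
    intro i
    have := hx.pow (Loc _).one_mem i
    rwa [one_pow] at this
  have hGe : Eqm (cyclotomic n ℚ) 1 G ((2 * μ + 1 : ℕ) : RatFunc ℚ) := by
    have := Eqm.sum (P := cyclotomic n ℚ) (k := 1) (s := range (2 * μ + 1)) (f := fun i => (q ^ n) ^ i) (g := fun _ => 1) (fun i _ => hpow i)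
    simpa using this
  have h1 : qint ((2 * μ + 1) * n) = qint n * G := by
    apply mul_right_cancel₀ one_sub_q
    rw [qint_mul, mul_right_comm, qint_mul, hG]
    have := geom_sum_mul (q ^ n) (2 * μ + 1)
    rw [mul_comm (2 * μ + 1) n, pow_mul]
    linear_combination this
  have hqn : QO (cyclotomic n ℚ) 1 (qint n) := by
    have h2 : qint n = (1 - q ^ n) * (1 - q)⁻¹ := by
      rw [← qint_mul, mul_assoc, mul_inv_cancel₀ one_sub_q, mul_one]
    rw [h2]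
    have h3 := inv_one_sub_mem (N := n) (b := 1) (by
      intro hd; have := Nat.le_of_dvd one_pos hd; omega)
    rw [pow_one] at h3
    exact QO.mul_right (QO_one_sub dvd_rfl) h3
  have h2 : q ^ ((n * μ + h) ^ 2) = q ^ (h ^ 2) * (q ^ n) ^ (n * μ ^ 2 + 2 * μ * h) := by
    rw [← pow_mul, ← pow_add]; congr 1; ring
  have h3 : (-1 : RatFunc ℚ) ^ (n * μ + h) = (-1) ^ h * (-1) ^ μ := by
    rw [pow_add, pow_mul, hn, pow_succ, pow_mul]
    norm_num
    ring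
  have hm1 : ∀ i : ℕ, (-1 : RatFunc ℚ) ^ i ∈ Loc (cyclotomic n ℚ) := fun i => (Loc _).pow_mem ((Loc _).neg_mem (Loc _).one_mem) _
  have h4 : Eqm (cyclotomic n ℚ) 1 ((-1) ^ h * (-1) ^ μ * (q ^ (h ^ 2) * (q ^ n) ^ (n * μ ^ 2 + 2 * μ * h)) * G)
      ((-1) ^ h * (-1) ^ μ * (q ^ (h ^ 2) * 1) * ((2 * μ + 1 : ℕ) : RatFunc ℚ)) :=
    (Eqm.mul_left ((Loc _).mul_mem (hm1 h) (hm1 μ)) (Eqm.mul_left ((Loc _).pow_mem (q_mem _) _) (hpow _))).mul hGe
      ((Loc _).mul_mem ((Loc _).mul_mem (hm1 h) (hm1 μ)) ((Loc _).mul_mem ((Loc _).pow_mem (q_mem _) _) (Loc _).one_mem)) (nat_mem _ _)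
  have h5 := QO.mul hqn h4
  unfold Eqm
  rw [h1, h2, h3]
  convert h5 using 1
  push_cast
  ring

/-- the blocks -/
theorem blocks {n h : ℕ} (hn : n = 2 * h + 1) (hn1 : 1 < n) (J : ℕ) :
    Eqm (cyclotomic n ℚ) 2 (∑ l ∈ range n, term (n * J + l)) ((-1) ^ h * q ^ (h ^ 2) * qint n * (b J : ℚ)) := by
  refine tri (w := w) (b := b) (v := fun μ => (-1) ^ μ * (2 * μ + 1)) (V := fun μ => (-1) ^ (n * μ + h) * q ^ ((n * μ + h) ^ 2) * qint ((2 * μ + 1) * n))
    (B := fun J => ∑ l ∈ range n, term (n * J + l)) ?_ classical (V_eqm hn hn1) ?_ J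
  · intro μ
    have h1 := block_main (P := cyclotomic n ℚ) (k := 2) (n := n) (term := term) (W := WW 1 n (2 * μ + 1)) (h := h) (μ := μ) (w := w μ)
      (fun J l hl => (term_mem hn J hl).1) (fun J l hl hl' => (term_mem hn J hl').2 hl)
      (fun J l _ hl => WW_mem hn μ J hl) (fun J l _ hl _ => WW_eqm hn μ J hl)
    rw [exact n μ h hn] at h1
    exact h1.symm
  · intro μ
    unfold w
    exact div_ne_zero (wo_ne (fun i hi => by omega) (by omega)) (we_ne μ)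

lemma prod_half (k : ℕ) : (∏ i ∈ range k, ((2 * (i : ℚ) + 1) / (2 * i + 2))) ^ 3 =
    (∏ j ∈ range k, (1 / 2 + (j : ℚ))) ^ 3 / (k.factorial : ℚ) ^ 3 := by
  rw [← div_pow]
  congr 1
  induction k with
  | zero => simp
  | succ k ih =>
    rw [prod_range_succ, prod_range_succ, ih, Nat.factorial_succ]
    have h1 : (k.factorial : ℚ) ≠ 0 := by exact_mod_cast Nat.factorial_ne_zero k
    have h2 : ((k : ℚ) + 1) ≠ 0 := by positivity
    have h3 : (2 * (k : ℚ) + 2) ≠ 0 := by positivity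
    push_cast
    field_simp
    ring

lemma congSq_of_QO {Φ : ℚ[X]} (hΦ : ¬ IsUnit Φ) {A B : RatFunc ℚ} (h : QO Φ 2 (A - B)) : CongSq Φ A B := by
  obtain ⟨y, ⟨a, b, h1, h2⟩, h3⟩ := h
  refine ⟨Φ ^ 2 * a, b, h1, dvd_mul_right _ _, ?_⟩
  have hb : b ≠ 0 := by
    rintro rfl
    exact hΦ (isCoprime_zero_left.1 h1)
  rw [eq_div_iff (al_ne hb), h3, map_mul, map_pow, mul_assoc, h2]

lemma not_unit_cyc (n : ℕ) (hn : 0 < n) : ¬ IsUnit (cyclotomic n ℚ) :=
  (cyclotomic.irreducible_rat hn).not_isUnit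

/-- **Answer to Q1.** The congruence holds for every `m` and every odd `n > 1`; it fails for
`n = 1`, `m = 2`. -/
theorem result :
    (∀ m n : ℕ, 1 < n → Odd n → CongSq (cyclotomic n ℚ) (S m n)
      ((-1) ^ ((n - 1) / 2) * q ^ ((n - 1) ^ 2 / 4) * qint n * (c m : ℚ))) ∧
    ¬ CongSq (cyclotomic 1 ℚ) (S 2 1) ((-1) ^ ((1 - 1) / 2) * q ^ ((1 - 1) ^ 2 / 4) * qint 1 * (c 2 : ℚ)) := by
  constructor
  · intro m n hn1 hodd
    obtain ⟨h, hn⟩ := hodd
    apply congSq_of_QO (not_unit_cyc n (by omega))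
    have e1 : (n - 1) / 2 = h := by omega
    have e2 : (n - 1) ^ 2 / 4 = h ^ 2 := by
      rw [hn, Nat.add_sub_cancel, mul_pow]; omega
    rw [e1, e2, S_eq, mul_comm m n, sum_range_blocks]
    have e3 : (c m : ℚ) = ∑ J ∈ range m, b J := by
      unfold c b
      apply sum_congr rfl
      intro k _
      rw [prod_half]
    rw [e3]
    have h1 := Eqm.sum (P := cyclotomic n ℚ) (k := 2) (s := range m) (f := fun J => ∑ l ∈ range n, term (n * J + l))
      (g := fun J => (-1) ^ h * q ^ (h ^ 2) * qint n * (b J : ℚ)) (fun J _ => blocks hn hn1 J)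
    rw [← mul_sum] at h1
    push_cast
    exact h1
  · rintro ⟨U, V, hV, hU, hE⟩
    rw [cyclotomic_one] at hV hU
    have hV0 : V ≠ 0 := by
      rintro rfl
      have h1 := isCoprime_zero_left.1 hV
      have h4 := natDegree_eq_zero_of_isUnit h1
      have h5 : (X - 1 : ℚ[X]).natDegree = 1 := by
        have := natDegree_X_sub_C (1 : ℚ); rwa [C_1] at this
      omega
    have h1 : (1 - q ^ 2 : RatFunc ℚ) ≠ 0 := one_sub_ne (j := 2) (by norm_num)
    have h2 := one_sub_q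
    have h3 : (1 + q : RatFunc ℚ) ≠ 0 := by
      intro h
      apply h1
      have : (1 - q ^ 2 : RatFunc ℚ) = (1 - q) * (1 + q) := by ring
      rw [this, h, mul_zero]
    have h4 : (S 2 1 - (-1) ^ ((1 - 1) / 2) * q ^ ((1 - 1) ^ 2 / 4) * qint 1 * ((c 2 : ℚ) : RatFunc ℚ)) * (8 * (1 + q) ^ 3) =
        5 * (1 + q) ^ 3 - 8 * q * (1 + q + q ^ 2 + q ^ 3 + q ^ 4) := by
      have hc : c 2 = 3 / 8 := by
        unfold c; norm_num [sum_range_succ, prod_range_succ, Nat.factorial]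
      rw [hc]
      unfold S qint qp
      norm_num [sum_range_succ, prod_range_succ]
      have e : (1 - q ^ 2 : RatFunc ℚ) = (1 - q) * (1 + q) := by ring
      rw [e]
      field_simp
      ring
    rw [hE] at h4
    have h5 : U * (8 * (1 + X) ^ 3) = (5 * (1 + X) ^ 3 - 8 * X * (1 + X + X ^ 2 + X ^ 3 + X ^ 4)) * V := by
      apply al_inj
      have hq : q = al X := q_eq
      rw [div_mul_eq_mul_div, div_eq_iff (al_ne hV0), hq] at h4
      have c5 : al (5 : ℚ[X]) = 5 := map_ofNat al 5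
      have c8 : al (8 : ℚ[X]) = 8 := map_ofNat al 8
      simp only [map_mul, map_sub, map_add, map_pow, map_one, c5, c8]
      exact h4
    have h6 : ((X - 1 : ℚ[X]) ^ 2) ∣ (5 * (1 + X) ^ 3 - 8 * X * (1 + X + X ^ 2 + X ^ 3 + X ^ 4)) * V := by
      rw [← h5]; exact hU.mul_right _
    have h7 := (hV.symm.pow_left (m := 2)).dvd_of_dvd_mul_right h6
    obtain ⟨Q, hQ⟩ := h7
    have h8 := congrArg (fun r => (derivative r).eval 1) hQ
    simp [pow_succ] at h8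
    norm_num at h8

end

end Pool.Agent.Results.MP_dac99f_nt.AllOddN
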